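import Pool.Agent.Y745.LD.Asm1
import Pool.Agent.Y745.LT.Defs

set_option autoImplicit false

/-! The measure of the set where `log |ζ|` is near `κ log log T`, from below. -/

namespace Pool.Agent.Y785.LT

open Filter Topology MeasureTheory Complex H370 Pool.Agent.Y745.SW Pool.Agent.Y745.LD Pool.Agent.Y745.LT

noncomputable section

theorem lowm_of (hLOW : P_LOW) (hVM1 : P_VM1) (hVMT : P_VMT) (hPW : P_PW) (hG2M : P_G2M) : P_LOWM := by
  intro κ η ε hη hε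
  obtain ⟨k1, hk1⟩ : ∃ k1 : ℝ, k1 = |κ| + 1 := ⟨_, rfl⟩
  have hk0 : 0 < k1 := by
    have := abs_nonneg κ
    linarith
  have hκk : |κ| ≤ k1 := by linarith
  obtain ⟨ε', hε'd⟩ : ∃ ε' : ℝ, ε' = min (η / 8) (ε / (8 * k1)) := ⟨_, rfl⟩
  have hε'0 : 0 < ε' := by
    rw [hε'd]
    positivity
  have hε'2 : ε' ≤ η / 8 := by
    rw [hε'd]
    exact min_le_left _ _
  have hε'3 : |κ| * ε' ≤ ε / 8 := by
    have h1 : ε' ≤ ε / (8 * k1) := by
      rw [hε'd]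
      exact min_le_right _ _
    calc |κ| * ε' ≤ k1 * (ε / (8 * k1)) := mul_le_mul hκk h1 hε'0.le hk0.le
      _ = ε / 8 := by field_simp
  obtain ⟨δ, hδd⟩ : ∃ δ : ℝ, δ = min (η / 8) (1 / 8) := ⟨_, rfl⟩
  have hδ0 : 0 < δ := by
    rw [hδd]
    positivity
  have hδ1 : δ ≤ η / 8 := by
    rw [hδd]
    exact min_le_left _ _
  have hδ2 : δ ≤ 1 / 8 := by
    rw [hδd]
    exact min_le_right _ _
  obtain ⟨c0, hc0, hc01, hD⟩ := hLOW κ δ hδ0
  obtain ⟨m, hm⟩ : ∃ m : ℝ, m = min (1 / 2) (η / (8 * k1)) := ⟨_, rfl⟩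
  have hm0 : 0 < m := by
    rw [hm]
    positivity
  have hm1 : m ≤ 1 / 2 := by
    rw [hm]
    exact min_le_left _ _
  obtain ⟨c, hcc0, hc1, hcpos, hcκ⟩ : ∃ c : ℝ, c0 ≤ c ∧ c < 1 ∧ 0 < c ∧ |κ| * (1 - c) ≤ η / 8 := by
    refine ⟨max c0 (1 - m), le_max_left _ _, max_lt hc01 (by linarith), lt_of_lt_of_le hc0 (le_max_left _ _), ?_⟩
    have h1 : 1 - max c0 (1 - m) ≤ m := by
      have := le_max_right c0 (1 - m)
      linarith
    have h2 : m ≤ η / (8 * k1) := by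
      rw [hm]
      exact min_le_right _ _
    have h3 : 0 ≤ 1 - max c0 (1 - m) := by
      have := max_lt hc01 (show 1 - m < 1 by linarith)
      linarith
    calc |κ| * (1 - max c0 (1 - m)) ≤ k1 * (η / (8 * k1)) := mul_le_mul hκk (h1.trans h2) h3 hk0.le
      _ = η / 8 := by field_simp
  obtain ⟨e2, he2⟩ : ∃ e2 : ℝ, e2 = (1 - c) / 2 := ⟨_, rfl⟩
  have he20 : 0 < e2 := by rw [he2]; linarith
  have he21 : e2 < 1 - c := by rw [he2]; linarith
  obtain ⟨A', hA'⟩ : ∃ A' : ℝ, A' = 3 * κ ^ 2 + 1 := ⟨_, rfl⟩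
  have hA'0 : 0 < A' := by
    rw [hA']
    positivity
  obtain ⟨A2, hA20, hG2⟩ := hG2M c e2 A' hcpos hc1 he20 he21 hA'0
  have hG2 := hG2 A2 le_rfl
  obtain ⟨Ad, hAd⟩ := hD c hcc0 hc1
  obtain ⟨Ap, hAp⟩ := hPW κ A2 hA20
  obtain ⟨Av, hAv⟩ := hVM1 κ c hcpos hc1
  obtain ⟨At, hAt⟩ := hVMT κ c hcpos hc1
  obtain ⟨A, h1, h2, h4, h5⟩ : ∃ A : ℝ, Ad ≤ A ∧ Ap ≤ A ∧ Av ≤ A ∧ At ≤ A := by
    refine ⟨max (max Ad Ap) (max Av At), ?_, ?_, ?_, ?_⟩
    · exact (le_max_left Ad Ap).trans (le_max_left _ _)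
    · exact (le_max_right Ad Ap).trans (le_max_left _ _)
    · exact (le_max_left Av At).trans (le_max_right _ _)
    · exact (le_max_right Av At).trans (le_max_right _ _)
  have hAd := hAd A h1
  have hAp := hAp A h2
  obtain ⟨C1, hC1, hAv⟩ := hAv A h4
  obtain ⟨C2, hC2, hAt⟩ := hAt A h5
  have hC10 : 0 < C1 := by linarith
  have hv : ∀ᶠ T : ℝ in atTop, F1 κ c A C1 T := hAv
  have hmb := mass_bad (η := 1 / 8) (A' := A') hc1 hC1 (by norm_num) (by rw [hA']) hv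
  have hmt := mass_tilt (η := 1 / 8) hC2 (by norm_num) hε'0 hAt
  have v2 := ev_pow_ge (18 / 5 * C1 * Real.exp (κ ^ 2 * C1)) (3 / 4 * ε) (by positivity)
  filter_upwards [hmb, hmt, hG2, hAd, hAp, hAv, v2,
    LL_tendsto.eventually_ge_atTop (2 * (1 + |κ| * C1) / η), Real.tendsto_log_atTop.eventually_ge_atTop 1,
    eventually_ge_atTop 10]
    with T tmb tmt tG2 tD tP tV w2 w3 tL tT1
  obtain ⟨g2, g2'⟩ := tG2
  obtain ⟨E, hEm, hEs, hEv, hEb⟩ := tD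
  obtain ⟨y1, y2, -, -⟩ := tV
  set L := Real.log T with hL
  have hL0 : 0 < L := by linarith
  have hT0 : 0 < T := by linarith
  have hLLd : Real.log L = LL T := rfl
  have hLL0 : 0 ≤ LL T := le_trans (by positivity) w3
  have hI0 : 0 ≤ IV κ c A T := IV_nonneg κ c A hT0.le
  have hV := V_cont κ c A T
  have hV0 := V_nonneg κ c A T
  obtain ⟨B2, hB2⟩ : ∃ B2 : Set ℝ, B2 = Set.Icc T (2 * T) \ G2 A2 c e2 T := ⟨_, rfl⟩
  obtain ⟨B3, hB3⟩ : ∃ B3 : Set ℝ, B3 = Set.Icc T (2 * T) \ GT κ c ε' T := ⟨_, rfl⟩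
  have hB2m : MeasurableSet B2 := by
    rw [hB2]
    exact measurableSet_Icc.diff g2
  have hB3m : MeasurableSet B3 := by
    rw [hB3]
    exact measurableSet_Icc.diff (GT_meas κ c ε' T)
  have hB2s : B2 ⊆ Set.Icc T (2 * T) := by
    rw [hB2]
    exact Set.sdiff_subset
  have hB3s : B3 ⊆ Set.Icc T (2 * T) := by
    rw [hB3]
    exact Set.sdiff_subset
  have m2 : ∫ t in B2, V κ c A T t ≤ 1 / 8 * IV κ c A T := by
    rw [hB2]
    exact tmb _ Set.sdiff_subset g2'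
  have m3 : ∫ t in B3, V κ c A T t ≤ 1 / 8 * IV κ c A T := by
    rw [hB3]
    exact tmt
  have m1 : ∫ t in E, V κ c A T t ≤ 1 / 8 * IV κ c A T :=
    hEv.trans (mul_le_mul_of_nonneg_right hδ2 hI0)
  obtain ⟨Bd, hBd⟩ : ∃ Bd : Set ℝ, Bd = E ∪ (B2 ∪ B3) := ⟨_, rfl⟩
  have hBdm : MeasurableSet Bd := by
    rw [hBd]
    exact hEm.union (hB2m.union hB3m)
  have hBds : Bd ⊆ Set.Icc T (2 * T) := by
    rw [hBd]
    exact Set.union_subset hEs (Set.union_subset hB2s hB3s)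
  have mB : ∫ t in Bd, V κ c A T t ≤ 3 / 8 * IV κ c A T := by
    have q1 := int_union_le hV hV0 hEm (hB2m.union hB3m) (x := T) (y := 2 * T)
      (Set.union_subset hEs (Set.union_subset hB2s hB3s))
    have q2 := int_union_le hV hV0 hB2m hB3m (x := T) (y := 2 * T) (Set.union_subset hB2s hB3s)
    rw [hBd]
    linarith
  have hint : IntegrableOn (fun t => V κ c A T t) (Set.Icc T (2 * T)) :=
    hV.continuousOn.integrableOn_compact isCompact_Icc
  have hIcc : ∫ t in Set.Icc T (2 * T), V κ c A T t = IV κ c A T := by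
    unfold IV
    rw [intervalIntegral.integral_of_le (by linarith), integral_Icc_eq_integral_Ioc]
  obtain ⟨G, hG⟩ : ∃ G : Set ℝ, G = Set.Icc T (2 * T) \ Bd := ⟨_, rfl⟩
  have hGm : MeasurableSet G := by
    rw [hG]
    exact measurableSet_Icc.diff hBdm
  have hGs : G ⊆ Set.Icc T (2 * T) := by
    rw [hG]
    exact Set.sdiff_subset
  have mG : 5 / 8 * IV κ c A T ≤ ∫ t in G, V κ c A T t := by
    have q1 : ∫ t in G, V κ c A T t =
        (∫ t in Set.Icc T (2 * T), V κ c A T t) - ∫ t in Bd, V κ c A T t := by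
      rw [hG]
      exact setIntegral_sdiff hBdm hint hBds
    rw [q1, hIcc]
    linarith
  obtain ⟨S, hS⟩ : ∃ S : Set ℝ, S = {t : ℝ | t ∈ Set.Icc T (2 * T) ∧
    |Real.log ‖riemannZeta (1 / 2 + t * I)‖ - κ * LL T| ≤ η * LL T} := ⟨_, rfl⟩
  have hgood : ∀ t ∈ G, t ∈ Set.Icc T (2 * T) ∧ t ∉ E ∧ t ∈ G2 A2 c e2 T ∧ t ∈ GT κ c ε' T := by
    intro t ht
    have htI := hGs ht
    rw [hG] at ht
    have ht2 : t ∉ Bd := ht.2
    rw [hBd] at ht2
    refine ⟨htI, fun h => ht2 (Or.inl h), ?_, ?_⟩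
    · by_contra hcon
      exact ht2 (Or.inr (Or.inl (by rw [hB2]; exact ⟨htI, hcon⟩)))
    · by_contra hcon
      exact ht2 (Or.inr (Or.inr (by rw [hB3]; exact ⟨htI, hcon⟩)))
  have hP3 : ∀ t ∈ G, |(Pc c T t).re - κ * sc c T| ≤ ε' * LL T := by
    intro t ht
    have a3 : ‖Pc c T t - ((κ * sc c T : ℝ) : ℂ)‖ ≤ ε' * LL T := (hgood t ht).2.2.2
    have := Complex.abs_re_le_norm (Pc c T t - ((κ * sc c T : ℝ) : ℂ))
    rw [Complex.sub_re, Complex.ofReal_re] at this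
    exact this.trans a3
  have hGS : G ⊆ S := by
    intro t ht
    obtain ⟨b1, b2, -, -⟩ := hgood t ht
    rw [hS]
    refine ⟨b1, ?_⟩
    have hs3 := hEb t b1 b2
    have hP4 : |κ * sc c T - κ * (c * LL T)| ≤ |κ| * C1 := by
      rw [← mul_sub, abs_mul]
      exact mul_le_mul_of_nonneg_left y1 (abs_nonneg _)
    have hP5 : |κ * (c * LL T) - κ * LL T| ≤ η / 8 * LL T := by
      have e1 : κ * (c * LL T) - κ * LL T = -(κ * ((1 - c) * LL T)) := by ring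
      rw [e1, abs_neg, abs_mul, abs_of_nonneg (mul_nonneg (by linarith) hLL0)]
      calc |κ| * ((1 - c) * LL T) = (|κ| * (1 - c)) * LL T := by ring
        _ ≤ _ := mul_le_mul_of_nonneg_right hcκ hLL0
    rw [div_le_iff₀ hη] at w3
    have q1 := abs_le.1 hs3
    have q3 := abs_le.1 (hP3 t ht)
    have q4 := abs_le.1 hP4
    have q5 := abs_le.1 hP5
    have q6 : ε' * LL T ≤ η / 8 * LL T := mul_le_mul_of_nonneg_right hε'2 hLL0
    have q7 : δ * LL T ≤ η / 8 * LL T := mul_le_mul_of_nonneg_right hδ1 hLL0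
    rw [abs_le]
    constructor
    · linarith [q1.1, q3.1, q4.1, q5.1]
    · linarith [q1.2, q3.2, q4.2, q5.2]
  obtain ⟨M, hM⟩ : ∃ M : ℝ, M = 9 / 4 * Real.exp (2 * κ ^ 2 * sc c T + 2 * (|κ| * ε') * LL T) :=
    ⟨_, rfl⟩
  have hM0 : 0 < M := by
    rw [hM]
    positivity
  have hbd : ∀ t ∈ G, V κ c A T t ≤ M := by
    intro t ht
    obtain ⟨b1, -, b2, -⟩ := hgood t ht
    have h6 := (b2 0 (by rw [abs_zero]; exact Real.rpow_nonneg hL0.le _)).1
    rw [add_zero] at h6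
    rw [hM]
    refine (V_le_exp tP h6).trans ?_
    refine mul_le_mul_of_nonneg_left ?_ (by norm_num)
    rw [Real.exp_le_exp]
    have h8 : κ * ((Pc c T t).re - κ * sc c T) ≤ |κ| * (ε' * LL T) := by
      refine (le_abs_self _).trans ?_
      rw [abs_mul]
      exact mul_le_mul_of_nonneg_left (hP3 t ht) (abs_nonneg _)
    have e1 : 2 * (κ * (Pc c T t).re) = 2 * κ ^ 2 * sc c T + 2 * (κ * ((Pc c T t).re - κ * sc c T)) := by ring
    rw [e1]
    have e3 : 2 * (|κ| * ε') * LL T = 2 * (|κ| * (ε' * LL T)) := by ring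
    rw [e3]
    linarith
  have hfin : volume G ≠ ⊤ := ne_top_of_le_ne_top (by simp) (measure_mono hGs)
  have hSs : S ⊆ Set.Icc T (2 * T) := by
    rw [hS]
    exact fun t ht => ht.1
  have hfinS : volume S ≠ ⊤ := ne_top_of_le_ne_top (by simp) (measure_mono hSs)
  have hup : ∫ t in G, V κ c A T t ≤ volume.real S * M := by
    calc ∫ t in G, V κ c A T t ≤ ∫ _t in G, M :=
          setIntegral_mono_on (hint.mono_set hGs) (integrableOn_const hfin) hGm hbd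
      _ = volume.real G * M := by rw [setIntegral_const, smul_eq_mul]
      _ ≤ volume.real S * M :=
          mul_le_mul_of_nonneg_right (measureReal_mono hGS hfinS) hM0.le
  rw [← hS]
  obtain ⟨v, hvS⟩ : ∃ v : ℝ, v = volume.real S := ⟨_, rfl⟩
  have hv0 : 0 ≤ v := by
    rw [hvS]
    exact measureReal_nonneg
  rw [← hvS] at hup ⊢
  have hkey2 : IV κ c A T ≤ 18 / 5 * v * Real.exp (2 * κ ^ 2 * sc c T + 2 * (|κ| * ε') * LL T) := by
    rw [hM] at hup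
    linarith
  have hkey3 : T ≤ 18 / 5 * C1 * v * Real.exp (κ ^ 2 * sc c T + 2 * (|κ| * ε') * LL T) := by
    have hE : 0 < Real.exp (κ ^ 2 * sc c T) := Real.exp_pos _
    refine le_of_mul_le_mul_left ?_ hE
    calc Real.exp (κ ^ 2 * sc c T) * T = T * Real.exp (κ ^ 2 * sc c T) := by ring
      _ ≤ C1 * IV κ c A T := y2
      _ ≤ C1 * (18 / 5 * v * Real.exp (2 * κ ^ 2 * sc c T + 2 * (|κ| * ε') * LL T)) :=
          mul_le_mul_of_nonneg_left hkey2 hC10.le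
      _ = 18 / 5 * C1 * v * Real.exp (κ ^ 2 * sc c T + (κ ^ 2 * sc c T + 2 * (|κ| * ε') * LL T)) := by
          rw [show κ ^ 2 * sc c T + (κ ^ 2 * sc c T + 2 * (|κ| * ε') * LL T) =
            2 * κ ^ 2 * sc c T + 2 * (|κ| * ε') * LL T by ring]
          ring
      _ = _ := by rw [Real.exp_add (κ ^ 2 * sc c T)]; ring
  have hexp : Real.exp (κ ^ 2 * sc c T + 2 * (|κ| * ε') * LL T) ≤
      Real.exp (κ ^ 2 * C1) * L ^ (κ ^ 2 + ε / 4) := by
    rw [Real.rpow_def_of_pos hL0, ← Real.exp_add, Real.exp_le_exp, hLLd]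
    have h6 : sc c T ≤ LL T + C1 := by
      have h7 := (abs_le.1 y1).2
      have h8 : c * LL T ≤ 1 * LL T := mul_le_mul_of_nonneg_right hc1.le hLL0
      linarith
    have h7 : κ ^ 2 * sc c T ≤ κ ^ 2 * (LL T + C1) := mul_le_mul_of_nonneg_left h6 (sq_nonneg _)
    have h8 : 2 * (|κ| * ε') * LL T ≤ ε / 4 * LL T := mul_le_mul_of_nonneg_right (by linarith) hLL0
    linarith
  have hkey4 : T ≤ (18 / 5 * C1 * Real.exp (κ ^ 2 * C1)) * (v * L ^ (κ ^ 2 + ε / 4)) := by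
    calc T ≤ 18 / 5 * C1 * v * Real.exp (κ ^ 2 * sc c T + 2 * (|κ| * ε') * LL T) := hkey3
      _ ≤ 18 / 5 * C1 * v * (Real.exp (κ ^ 2 * C1) * L ^ (κ ^ 2 + ε / 4)) :=
          mul_le_mul_of_nonneg_left hexp (by positivity)
      _ = _ := by ring
  have hkey5 : T ≤ L ^ (3 / 4 * ε) * (v * L ^ (κ ^ 2 + ε / 4)) := by
    refine hkey4.trans (mul_le_mul_of_nonneg_right w2 ?_)
    have : 0 ≤ L ^ (κ ^ 2 + ε / 4) := Real.rpow_nonneg hL0.le _
    positivity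
  have hfin2 : T * L ^ (-(κ ^ 2) - ε) * L ^ (κ ^ 2 + ε) ≤ v * L ^ (κ ^ 2 + ε) := by
    calc T * L ^ (-(κ ^ 2) - ε) * L ^ (κ ^ 2 + ε) = T * (L ^ (-(κ ^ 2) - ε) * L ^ (κ ^ 2 + ε)) := by ring
      _ = T := by
          rw [← Real.rpow_add hL0, show -(κ ^ 2) - ε + (κ ^ 2 + ε) = 0 by ring, Real.rpow_zero, mul_one]
      _ ≤ L ^ (3 / 4 * ε) * (v * L ^ (κ ^ 2 + ε / 4)) := hkey5
      _ = v * (L ^ (3 / 4 * ε) * L ^ (κ ^ 2 + ε / 4)) := by ring
      _ = _ := by rw [← Real.rpow_add hL0]; congr 2; ring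
  exact le_of_mul_le_mul_right hfin2 (Real.rpow_pos_of_pos hL0 _)

end

end Pool.Agent.Y785.LT
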