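import Pool.Agent.Y745.LD.Final
import Pool.Agent.Y785.LT.LOWM0

set_option autoImplicit false

/-! The measure of the set where `log |ζ|` is near `κ log log T`, from below. -/

namespace Pool.Agent.Y785.LT

open Pool.Agent.Y745.LD Pool.Agent.Y745.LT

theorem t_LOWM : P_LOWM := lowm_of a_LOW a_VM1 a_VMT Pool.Agent.Y363.LD.t_PW a_G2M

end Pool.Agent.Y785.LT
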